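import Pool.Agent.H18.HX.Targets

/-!
Row NRX: multiples in the variables `X i.succ`
-/

set_option autoImplicit false

open MvPolynomial
open Pool.Agent.H12.ZD (pmap v O Res DenseOrbit NoInv)
open Pool.Agent.H18.HIT Pool.Agent.H18.HX

namespace Pool.Agent.H70.HX

theorem fse_up {N : ℕ} {k : Type} [Field k] (q : Po N k) :
    finSuccEquiv k N (up q) = Polynomial.C q := by
  unfold up
  induction q using MvPolynomial.induction_on with
  | C a => rw [rename_C, finSuccEquiv_apply, eval₂Hom_C]; rfl
  | add p q hp hq => rw [map_add, map_add, hp, hq, Polynomial.C_add]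
  | mul_X p i hp => rw [map_mul, map_mul, hp, rename_X, finSuccEquiv_X_succ, Polynomial.C_mul]

theorem clear_den {R : Type} [CommRing R] [IsDomain R] (p : Polynomial (FractionRing R)) :
    ∃ (s : R) (q : Polynomial R), s ≠ 0 ∧
      q.map (algebraMap R (FractionRing R)) = Polynomial.C (algebraMap R (FractionRing R) s) * p := by
  obtain ⟨b, hb⟩ := IsLocalization.integerNormalization_map_to_map (nonZeroDivisors R) p
  refine ⟨(b : R), IsLocalization.integerNormalization (nonZeroDivisors R) p,
    nonZeroDivisors.ne_zero b.2, ?_⟩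
  rw [hb, ← Polynomial.smul_eq_C_mul, algebraMap_smul]

theorem pf_NRX : T_NRX := by
  intro N k _ P c hP hM hc
  obtain ⟨P', hP'⟩ : ∃ P' : Polynomial (Po N k), P' = finSuccEquiv k N P := ⟨_, rfl⟩
  obtain ⟨c', hc'⟩ : ∃ c' : Polynomial (Po N k), c' = finSuccEquiv k N c := ⟨_, rfl⟩
  have hmon : P'.Monic := by rw [hP']; exact hM
  have hirr : Irreducible P' := by
    rw [hP']
    exact (MulEquiv.irreducible_iff (finSuccEquiv k N)).2 hP
  have hnd : ¬ P' ∣ c' := by
    rintro ⟨w, hw⟩
    apply hc
    refine ⟨(finSuccEquiv k N).symm w, (finSuccEquiv k N).injective ?_⟩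
    rw [map_mul, AlgEquiv.apply_symm_apply, ← hP', ← hc']
    exact hw
  have hirr2 : Irreducible (P'.map (algebraMap (Po N k) (FractionRing (Po N k)))) :=
    (hmon.irreducible_iff_irreducible_map_fraction_map).1 hirr
  have hinj : Function.Injective (algebraMap (Po N k) (FractionRing (Po N k))) :=
    IsFractionRing.injective _ _
  have hnd2 : ¬ P'.map (algebraMap (Po N k) (FractionRing (Po N k))) ∣
      c'.map (algebraMap (Po N k) (FractionRing (Po N k))) := by
    rw [Polynomial.map_dvd_map _ hinj hmon]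
    exact hnd
  obtain ⟨a, b, hab⟩ := (hirr2.coprime_iff_not_dvd).2 hnd2
  obtain ⟨s1, a1, hs1, ha1⟩ := clear_den a
  obtain ⟨s2, b1, hs2, hb1⟩ := clear_den b
  have hkey : Polynomial.C (s1 * s2) =
      Polynomial.C s2 * a1 * P' + Polynomial.C s1 * b1 * c' := by
    apply Polynomial.map_injective _ hinj
    rw [Polynomial.map_add, Polynomial.map_mul, Polynomial.map_mul, Polynomial.map_mul,
      Polynomial.map_mul, ha1, hb1, Polynomial.map_C, Polynomial.map_C, Polynomial.map_C, map_mul,
      Polynomial.C_mul]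
    linear_combination (-(Polynomial.C (algebraMap (Po N k) (FractionRing (Po N k)) s1) *
      Polynomial.C (algebraMap (Po N k) (FractionRing (Po N k)) s2))) * hab
  obtain ⟨A, hA⟩ := (finSuccEquiv k N).surjective (Polynomial.C s1 * b1)
  obtain ⟨W, hW⟩ := (finSuccEquiv k N).surjective (Polynomial.C s2 * a1)
  refine ⟨s1 * s2, A, mul_ne_zero hs1 hs2, W, (finSuccEquiv k N).injective ?_⟩
  rw [map_sub, map_mul, map_mul, hA, hW, fse_up, ← hP', ← hc', hkey]
  ring

end Pool.Agent.H70.HX
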